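import Pool.Agent.H12.Ideals.T1

set_option autoImplicit false

universe u

open Cardinal Set

namespace Pool.Agent.H99.Ideals

open Pool.Agent.H12.Ideals

variable {P : Type u} [PartialOrder P] {μ κ : Cardinal.{u}} {ρ : κ.ord.ToType → Cardinal.{u}}

/-- If `P` is not small then some upper cone is hereditarily non-small. -/
theorem step1 (hs : Scale μ κ ρ) (hμ : InD μ P) (hns : ¬ Sm μ (Set.univ : Set P)) :
    ∃ x0 : P, ∀ y, x0 ≤ y → ¬ Sm μ (Ici y) := by
  by_contra hcon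
  push Not at hcon
  obtain ⟨W, hW, hWκ, hWs⟩ := wLemma hs hμ {x : P | Sm μ (Ici x)}
  apply hns
  have h1 : Sm μ {x : P | Sm μ (Ici x)} := by
    refine (Sm.union hs (Sm.iUnion hs (ι := W) hWκ (fun w => Ici w.1)
      (fun w => hW w.2)) hWs).mono ?_
    intro x hx
    by_cases h : x ∈ up W
    · obtain ⟨w, hw, hwx⟩ := h
      exact Or.inl (mem_iUnion.2 ⟨⟨w, hw⟩, hwx⟩)
    · exact Or.inr ⟨hx, h⟩
  obtain ⟨σ, h2, h3, h4⟩ := h1
  refine ⟨σ, h2, h3, h4.dn.mono ?_ le_rfl⟩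
  intro x _
  obtain ⟨y, hxy, hy⟩ := hcon x
  exact ⟨y, hy, hxy⟩

/-- `W` is dominated by at most `τ` elements. -/
def Dom (τ : Cardinal.{u}) (W : Set P) : Prop := ∃ D : Set P, #D ≤ τ ∧ W ⊆ dn D

theorem Dom.mono {τ τ' : Cardinal.{u}} {W W' : Set P} (h : Dom τ W) (hτ : τ ≤ τ')
    (hW : W' ⊆ W) : Dom τ' W' := by
  obtain ⟨D, h1, h2⟩ := h
  exact ⟨D, h1.trans hτ, hW.trans h2⟩

theorem Dom.iUnion {ι : Type u} {τ : Cardinal.{u}} (hτ : ℵ₀ ≤ τ) (hι : #ι ≤ τ) (W : ι → Set P)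
    (h : ∀ i, Dom τ (W i)) : Dom τ (⋃ i, W i) := by
  choose D h1 h2 using h
  refine ⟨⋃ i, D i, ?_, ?_⟩
  · refine mk_iUnion_le_sum_mk.trans ((sum_le_sum _ (fun _ => τ) h1).trans ?_)
    rw [sum_const']
    exact (mul_le_mul' hι le_rfl).trans (mul_eq_self hτ).le
  · refine iUnion_subset fun i x hx => ?_
    obtain ⟨d, hd, hxd⟩ := h2 i hx
    exact ⟨d, mem_iUnion.2 ⟨i, hd⟩, hxd⟩

theorem Dom.union {τ : Cardinal.{u}} (hτ : ℵ₀ ≤ τ) {W W' : Set P} (h : Dom τ W)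
    (h' : Dom τ W') : Dom τ (W ∪ W') := by
  obtain ⟨D, h1, h2⟩ := h
  obtain ⟨D', h3, h4⟩ := h'
  refine ⟨D ∪ D', (mk_union_le _ _).trans (add_le_of_le hτ h1 h3), ?_⟩
  rintro x (hx | hx)
  · obtain ⟨d, hd, hxd⟩ := h2 hx
    exact ⟨d, Or.inl hd, hxd⟩
  · obtain ⟨d, hd, hxd⟩ := h4 hx
    exact ⟨d, Or.inr hd, hxd⟩

omit [PartialOrder P] in
/-- pigeonhole -/
theorem pigeon {ι : Type u} {r : Cardinal.{u}} (hr : ℵ₀ ≤ r) (hι : #ι ≤ r) (A : Set P)
    (hA : r < #A) (t : P → ι) : ∃ i, r < #{a ∈ A | t a = i} := by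
  by_contra hcon
  push Not at hcon
  have h1 : A = ⋃ i, {a ∈ A | t a = i} := by
    ext a
    simp
  have h2 : #A ≤ r := by
    rw [h1]
    refine mk_iUnion_le_sum_mk.trans ((sum_le_sum _ (fun _ => r) hcon).trans ?_)
    rw [sum_const']
    exact (mul_le_mul' hι le_rfl).trans (mul_eq_self hr).le
  exact absurd hA (not_lt.2 h2)

/-- the union of the antichains of a block -/
def block (a : Set P × (P → Set P)) : Set P := ⋃ w : a.1, a.2 w.1

/-- Step 2: sets of size less than `μ` are dominated by a bounded number of elements. -/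
theorem step2 (hs : Scale μ κ ρ) (hst : ∀ l < μ, 2 ^ l < μ) (hD : InD μ P)
    (hH : ∀ w : P, ∀ l < μ, ∃ A ⊆ Ici w, IsAntichain (· ≤ ·) A ∧ #A = l) :
    ∃ σ, κ ≤ σ ∧ σ < μ ∧ ∀ W : Set P, #W < μ → Dom σ W := by
  classical
  by_contra hcon
  push Not at hcon
  obtain ⟨f, hf⟩ := rec_choice (α := Set P × (P → Set P))
    (fun a b : κ.ord.ToType => a < b) wellFounded_lt
    (fun l f a => ¬ Dom κ a.1 ∧
      (∀ w ∈ a.1, a.2 w ⊆ Ici w ∧ IsAntichain (· ≤ ·) (a.2 w) ∧ ρ l < #(a.2 w)) ∧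
      #(block a) < μ ∧
      (∀ b ∈ ⋃ k, block (f k), ∀ y ∈ block a, ∀ y' ∈ block a, b ≤ y → b ≤ y') ∧
      (∀ b ∈ ⋃ k, block (f k), ∀ y ∈ block a, ¬ y ≤ b)) (by
    intro l f hf
    set B : Set P := ⋃ k : {j // j < l}, block (f k.1) with hBdef
    have hB : #B < μ := by
      refine mk_iUnion_le_sum_mk.trans_lt ?_
      have hlt : #{j // j < l} < κ := by
        have : #(Iio l) < κ := by simpa using mk_Iio_lt l
        exact this
      have h1 : ⨆ k : {j // j < l}, #(block (f k.1)) < μ := by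
        refine iSup_lt_of_lt_cof_ord ?_ (fun k => (hf k.1 k.2).2.2.1)
        rw [hs.cof_eq]; exact hlt
      refine (sum_le_mk_mul_iSup _).trans_lt ?_
      exact mul_lt_of_lt hs.aleph0_lt.le (hlt.trans hs.klt) h1
    have hρl := hs.aleph0_le_rho l
    set χ : Cardinal.{u} := max (2 ^ #B) (ρ l) with hχ
    have hχ0 : ℵ₀ ≤ χ := hρl.trans (le_max_right _ _)
    have hχκ : κ ≤ χ := (hs.le l).trans (le_max_right _ _)
    have hχμ : χ < μ := max_lt (hst _ hB) (hs.lt l)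
    have hBχ : #B ≤ χ := (cantor _).le.trans (le_max_left _ _)
    obtain ⟨W, hWμ, hWD⟩ := hcon χ hχκ hχμ
    have hA := fun w : P => hH w (Order.succ χ) (hs.lim _ hχμ)
    choose A hA1 hA2 hA3 using hA
    let tr : P → (𝒫 B : Set (Set P)) := fun y => ⟨{b ∈ B | b ≤ y}, sep_subset _ _⟩
    have hpB : #(𝒫 B : Set (Set P)) ≤ χ := by
      rw [mk_powerset]
      exact le_max_left _ _
    have hfib : ∀ w, ∃ i, χ < #{a ∈ A w | tr a = i} := by
      intro w
      refine pigeon hχ0 hpB (A w) ?_ tr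
      rw [hA3]
      exact Order.lt_succ _
    choose t ht using hfib
    -- the fibre which is not dominated
    obtain ⟨T, hT⟩ : ∃ T : (𝒫 B : Set (Set P)), ¬ Dom κ {w ∈ W | w ∉ dn B ∧ t w = T} := by
      by_contra hcon2
      push Not at hcon2
      apply hWD
      have h1 : Dom χ (⋃ T, {w ∈ W | w ∉ dn B ∧ t w = T}) :=
        Dom.iUnion hχ0 hpB _ (fun T => (hcon2 T).mono hχκ subset_rfl)
      have h2 : Dom χ (dn B) := ⟨B, hBχ, subset_rfl⟩
      refine (Dom.union hχ0 h1 h2).mono le_rfl ?_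
      intro w hw
      by_cases hwB : w ∈ dn B
      · exact Or.inr hwB
      · exact Or.inl (mem_iUnion.2 ⟨t w, hw, hwB, rfl⟩)
    refine ⟨({w ∈ W | w ∉ dn B ∧ t w = T}, fun w => {a ∈ A w | tr a = t w}), hT, ?_, ?_, ?_, ?_⟩
    · intro w _
      refine ⟨fun a ha => hA1 w ha.1, (hA2 w).subset (sep_subset _ _), ?_⟩
      exact (le_max_right _ _).trans_lt (ht w)
    · have hsW : #{w ∈ W | w ∉ dn B ∧ t w = T} < μ :=
        (mk_le_mk_of_subset (sep_subset _ _)).trans_lt hWμ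
      refine mk_iUnion_le_sum_mk.trans_lt ?_
      refine (sum_le_sum _ (fun _ => Order.succ χ) ?_).trans_lt ?_
      · rintro w
        refine (mk_le_mk_of_subset (sep_subset _ _)).trans ?_
        rw [hA3]
      · rw [sum_const']
        exact mul_lt_of_lt hs.aleph0_lt.le hsW (hs.lim _ hχμ)
    · intro b hb y hy y' hy' hby
      obtain ⟨⟨w, hw⟩, hyw⟩ := mem_iUnion.1 hy
      obtain ⟨⟨w', hw'⟩, hyw'⟩ := mem_iUnion.1 hy'
      have h1 : tr y = T := hyw.2.trans hw.2.2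
      have h2 : tr y' = T := hyw'.2.trans hw'.2.2
      have h3 : (tr y).1 = (tr y').1 := by rw [h1, h2]
      have h4 : b ∈ (tr y).1 := ⟨hb, hby⟩
      rw [h3] at h4
      exact h4.2
    · intro b hb y hy hyb
      obtain ⟨⟨w, hw⟩, hyw⟩ := mem_iUnion.1 hy
      exact hw.2.1 ⟨b, hb, le_trans (hA1 w hyw.1) hyb⟩)
  -- choose an element of each block
  have hne : ∀ l, ∃ y, y ∈ block (f l) := by
    intro l
    have h1 : (f l).1.Nonempty := by
      by_contra hemp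
      rw [Set.not_nonempty_iff_eq_empty] at hemp
      apply (hf l).1
      refine ⟨∅, by simp, ?_⟩
      rw [hemp]
      exact empty_subset _
    obtain ⟨w, hw⟩ := h1
    have h2 : ((f l).2 w).Nonempty := by
      by_contra hemp
      rw [Set.not_nonempty_iff_eq_empty] at hemp
      have h3 := ((hf l).2.1 w hw).2.2
      rw [hemp] at h3
      simp at h3
    obtain ⟨y, hy⟩ := h2
    exact ⟨y, mem_iUnion.2 ⟨⟨w, hw⟩, hy⟩⟩
  choose y hy using hne
  have hDr : #(range y) ≤ κ := mk_range_le.trans (by simp)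
  have hw : ∀ l, ∃ w ∈ (f l).1, w ∉ dn (range y) := by
    intro l
    by_contra hcon2
    push Not at hcon2
    exact (hf l).1 ⟨range y, hDr, hcon2⟩
  choose w hw1 hw2 using hw
  have hmem : ∀ l, ∀ a ∈ (f l).2 (w l), a ∈ block (f l) := fun l a ha =>
    mem_iUnion.2 ⟨⟨w l, hw1 l⟩, ha⟩
  have hanti : IsAntichain (· ≤ ·) (⋃ l, (f l).2 (w l)) := by
    have key : ∀ j l, j < l → ∀ a ∈ (f j).2 (w j), ∀ b ∈ (f l).2 (w l), ¬ a ≤ b ∧ ¬ b ≤ a := by
      intro j l hjl a ha b hb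
      have haB : a ∈ ⋃ k : {j // j < l}, block (f k.1) := mem_iUnion.2 ⟨⟨j, hjl⟩, hmem j a ha⟩
      constructor
      · intro hab
        have h1 := (hf l).2.2.2.1 a haB b (hmem l b hb) (y l) (hy l) hab
        exact hw2 j ⟨y l, ⟨l, rfl⟩, le_trans (((hf j).2.1 (w j) (hw1 j)).1 ha) h1⟩
      · intro hba
        exact (hf l).2.2.2.2 a haB b (hmem l b hb) hba
    intro a ha b hb hab hle
    obtain ⟨α, hα⟩ := mem_iUnion.1 ha
    obtain ⟨β, hβ⟩ := mem_iUnion.1 hb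
    rcases lt_trichotomy α β with hlt | heq | hgt
    · exact (key α β hlt a hα b hβ).1 hle
    · subst heq
      exact ((hf α).2.1 (w α) (hw1 α)).2.1 hα hβ hab hle
    · exact (key β α hgt b hβ a hα).2 hle
  have hlt := hD.lt hanti
  obtain ⟨β, hβ⟩ := hs.cofinal _ hlt
  have h6 : ρ β < #(⋃ l, (f l).2 (w l) : Set P) := by
    refine ((hf β).2.1 (w β) (hw1 β)).2.2.trans_le ?_
    exact mk_le_mk_of_subset (subset_iUnion (fun l => (f l).2 (w l)) β)
  exact absurd h6 (not_lt.2 hβ)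

end Pool.Agent.H99.Ideals
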