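import Pool.Agent.H99.Ideals.S1

set_option autoImplicit false

universe u

open Cardinal Set

namespace Pool.Agent.H99.Ideals

open Pool.Agent.H12.Ideals

variable {P : Type u} [PartialOrder P] {μ κ : Cardinal.{u}} {ρ : κ.ord.ToType → Cardinal.{u}}

/-- every subset of size at most `σ` has an upper bound in `P`. -/
def Bd (σ : Cardinal.{u}) (R : Set P) : Prop := ∀ C ⊆ R, #C ≤ σ → ∃ p, ∀ c ∈ C, c ≤ p

theorem Bd.of_bdd {σ : Cardinal.{u}} {R : Set P} (p : P) (h : ∀ c ∈ R, c ≤ p) : Bd σ R :=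
  fun _ hC _ => ⟨p, fun c hc => h c (hC hc)⟩

/-- Step 3. -/
theorem step3 (hst : ∀ l < μ, 2 ^ l < μ) {σ : Cardinal.{u}} (hσ : ℵ₀ ≤ σ) (hσμ : σ < μ)
    (hdom : ∀ W : Set P, #W < μ → Dom σ W) {R : Set P} (hR : Bd σ R) (B : Set P) (hB : B ⊆ R)
    (hBμ : #B < μ) : ∃ p, ∀ b ∈ B, b ≤ p := by
  classical
  by_contra hcon
  push Not at hcon
  have hμ0 : ℵ₀ ≤ μ := hσ.trans hσμ.le
  let 𝓒 : Set (Set P) := {C | C ⊆ B ∧ #C ≤ σ}
  have h𝓒 : #𝓒 < μ := by
    refine (mk_bounded_subset_le B σ).trans_lt ?_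
    have h1 : max #B ℵ₀ * σ < μ := mul_lt_of_lt hμ0 (max_lt hBμ (hσ.trans_lt hσμ)) hσμ
    refine lt_of_le_of_lt ?_ (hst _ h1)
    rw [power_mul]
    exact power_le_power_right (cantor _).le
  have he : ∀ C : 𝓒, ∃ p, ∀ c ∈ C.1, c ≤ p := fun C => hR C.1 (C.2.1.trans hB) C.2.2
  choose e he using he
  obtain ⟨D, hD, hDe⟩ := hdom (range e) (mk_range_le.trans_lt h𝓒)
  choose b hb hbn using hcon
  let C : Set P := b '' D
  have hC : C ∈ 𝓒 := by
    refine ⟨?_, mk_image_le.trans hD⟩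
    rintro _ ⟨d, _, rfl⟩
    exact hb d
  obtain ⟨d, hd, hed⟩ := hDe ⟨⟨C, hC⟩, rfl⟩
  exact hbn d (le_trans (he ⟨C, hC⟩ (b d) ⟨d, hd, rfl⟩) hed)

/-- Step 5. -/
theorem step5 (hst : ∀ l < μ, 2 ^ l < μ) {σ : Cardinal.{u}} (hσ : ℵ₀ ≤ σ) (hσμ : σ < μ)
    (hdom : ∀ W : Set P, #W < μ → Dom σ W) (hne : Nonempty P) {ι : Type u} (hι : #ι < μ)
    (R : ι → Set P) (hR : ∀ i, Bd σ (R i)) :
    ∃ S : σ.out → Set P, (∀ ζ, Bd σ (S ζ)) ∧ ⋃ i, R i ⊆ ⋃ ζ, S ζ := by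
  classical
  by_contra hcon
  push Not at hcon
  have hμ0 : ℵ₀ ≤ μ := hσ.trans hσμ.le
  have h1 : ∀ z : ι → σ.out, ∃ ζ, ∃ C ⊆ {p | ∃ i, z i = ζ ∧ p ∈ R i}, #C ≤ σ ∧
      ∀ p, ∃ c ∈ C, ¬ c ≤ p := by
    intro z
    by_contra hcon2
    push Not at hcon2
    refine hcon (fun ζ => {p | ∃ i, z i = ζ ∧ p ∈ R i}) ?_ ?_
    · intro ζ C hC hCσ
      obtain ⟨p, hp⟩ := hcon2 ζ C hC hCσ
      exact ⟨p, hp⟩
    · refine iUnion_subset fun i p hp => ?_
      exact mem_iUnion.2 ⟨z i, i, rfl, hp⟩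
  choose ζ C hC hCσ hCn using h1
  let W : Set P := ⋃ z, C z
  have hW : #W < μ := by
    refine mk_iUnion_le_sum_mk.trans_lt ?_
    refine (sum_le_sum _ (fun _ => σ) hCσ).trans_lt ?_
    rw [sum_const']
    refine mul_lt_of_lt hμ0 ?_ hσμ
    have h2 : #(ι → σ.out) = σ ^ #ι := by rw [← power_def, mk_out]
    rw [h2]
    refine lt_of_le_of_lt ?_ (hst _ (mul_lt_of_lt hμ0 hσμ hι))
    rw [power_mul]
    exact power_le_power_right (cantor _).le
  have he : ∀ i, ∃ p, ∀ b ∈ W ∩ R i, b ≤ p := fun i =>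
    step3 hst hσ hσμ hdom (hR i) _ inter_subset_right
      ((mk_le_mk_of_subset inter_subset_left).trans_lt hW)
  choose e he using he
  obtain ⟨D, hD, hDe⟩ := hdom (range e) (mk_range_le.trans_lt hι)
  have h3 : ∀ i, ∃ d : D, e i ≤ d.1 := by
    intro i
    obtain ⟨d, hd, hed⟩ := hDe ⟨i, rfl⟩
    exact ⟨⟨d, hd⟩, hed⟩
  choose d hd using h3
  have h4 : #D ≤ #σ.out := by simpa using hD
  obtain ⟨g⟩ := h4
  let z : ι → σ.out := fun i => g (d i)
  by_cases hex : ∃ i, z i = ζ z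
  · obtain ⟨i0, hi0⟩ := hex
    obtain ⟨c, hc, hcn⟩ := hCn z (d i0).1
    apply hcn
    obtain ⟨i, hi, hci⟩ := hC z hc
    have h5 : d i = d i0 := g.injective (hi.trans hi0.symm)
    rw [← h5]
    exact le_trans (he i c ⟨mem_iUnion.2 ⟨z, hc⟩, hci⟩) (hd i)
  · obtain ⟨c, hc, _⟩ := hCn z hne.some
    obtain ⟨i, hi, _⟩ := hC z hc
    exact hex ⟨i, hi⟩

/-- Step 6. -/
theorem step6 {σ : Cardinal.{u}} (hσ : ℵ₀ ≤ σ) {J : Type u} (hJ : #J ≤ σ) (T : J → Set P)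
    (hT : ∀ j, Bd σ (T j)) (hcov : ∀ p, ∃ j, p ∈ T j) :
    ∃ 𝓕 : Set (Set P), #𝓕 ≤ σ ∧ (∀ I ∈ 𝓕, IsIdl I) ∧ ⋃₀ 𝓕 = Set.univ := by
  classical
  have hg : ∀ j, ∃ j', ∀ C ⊆ T j, #C ≤ σ → ∃ p ∈ T j', ∀ c ∈ C, c ≤ p := by
    intro j
    by_contra hcon
    push Not at hcon
    choose C hC hCσ hCn using hcon
    obtain ⟨p, hp⟩ := hT j (⋃ j', C j') (iUnion_subset hC) (by
      refine mk_iUnion_le_sum_mk.trans ((sum_le_sum _ (fun _ => σ) hCσ).trans ?_)
      rw [sum_const']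
      exact (mul_le_mul' hJ le_rfl).trans (mul_eq_self hσ).le)
    obtain ⟨j', hj'⟩ := hcov p
    obtain ⟨c, hc, hcp⟩ := hCn j' p hj'
    exact hcp (hp c (mem_iUnion.2 ⟨j', hc⟩))
  choose g hg using hg
  have hfin : ∀ s : Set P, s.Finite → #s ≤ σ := fun s hs => (hs.lt_aleph0.le).trans hσ
  have hup : ∀ j n m, ∀ a ∈ T (g^[n] j), ∃ a' ∈ T (g^[n + m] j), a ≤ a' := by
    intro j n m
    induction m with
    | zero => exact fun a ha => ⟨a, ha, le_rfl⟩
    | succ m ih =>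
      intro a ha
      obtain ⟨a', ha', haa'⟩ := ih a ha
      obtain ⟨p, hp, hpc⟩ := hg _ {a'} (singleton_subset_iff.2 ha') (hfin _ (finite_singleton _))
      refine ⟨p, ?_, haa'.trans (hpc a' rfl)⟩
      rw [← add_assoc, Function.iterate_succ_apply']
      exact hp
  have hdir : ∀ j, DirectedOn (· ≤ ·) (⋃ n, T (g^[n] j)) := by
    intro j a ha b hb
    obtain ⟨n, hn⟩ := mem_iUnion.1 ha
    obtain ⟨m, hm⟩ := mem_iUnion.1 hb
    obtain ⟨a', ha', haa'⟩ := hup j n m a hn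
    obtain ⟨b', hb', hbb'⟩ := hup j m n b hm
    rw [add_comm] at hb'
    obtain ⟨p, hp, hpc⟩ := hg _ {a', b'} (by
      rintro x (rfl | rfl)
      · exact ha'
      · exact hb') (hfin _ (by simp))
    refine ⟨p, mem_iUnion.2 ⟨n + m + 1, ?_⟩, haa'.trans (hpc a' (by simp)),
      hbb'.trans (hpc b' (by simp))⟩
    rw [Function.iterate_succ_apply']
    exact hp
  refine ⟨range (fun j => dn (⋃ n, T (g^[n] j))), mk_range_le.trans hJ, ?_, ?_⟩
  · rintro _ ⟨j, rfl⟩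
    exact IsIdl.dn_of_directed (hdir j)
  · refine Set.eq_univ_of_forall fun x => ?_
    obtain ⟨j, hj⟩ := hcov x
    exact ⟨_, ⟨j, rfl⟩, x, mem_iUnion.2 ⟨0, hj⟩, le_rfl⟩

/-- Step 4. -/
theorem step4 (hst : ∀ l < μ, 2 ^ l < μ) (hD : InD μ P) {σ : Cardinal.{u}} (hσ : ℵ₀ ≤ σ)
    (hσμ : σ < μ) (hne : Nonempty P) :
    ∃ (ι : Type u) (R : ι → Set P), #ι ≤ μ ∧ (∀ i, Bd σ (R i)) ∧ ∀ p, ∃ i, p ∈ R i := by
  classical
  have hμ0 : ℵ₀ ≤ μ := hσ.trans hσμ.le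
  have hσne : Nonempty σ.out := by
    rw [← mk_ne_zero_iff, mk_out]
    exact (aleph0_pos.trans_le hσ).ne'
  -- witnesses for unboundedness
  have he : ∀ A : Set P, ∃ e : σ.out → P, ¬ Bd σ (inc A) →
      (∀ ζ, e ζ ∈ inc A) ∧ ∀ p, ∃ ζ, ¬ e ζ ≤ p := by
    intro A
    by_cases hA : Bd σ (inc A)
    · exact ⟨fun _ => hne.some, fun h => (h hA).elim⟩
    · unfold Bd at hA
      push Not at hA
      obtain ⟨C, hC, hCσ, hCn⟩ := hA
      have hCne : Nonempty C := by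
        obtain ⟨c, hc, _⟩ := hCn hne.some
        exact ⟨⟨c, hc⟩⟩
      have h4 : #C ≤ #σ.out := by simpa using hCσ
      obtain ⟨g⟩ := h4
      refine ⟨fun ζ => (Function.invFun g ζ).1, fun _ => ⟨fun ζ => hC (Function.invFun g ζ).2,
        fun p => ?_⟩⟩
      obtain ⟨c, hc, hcp⟩ := hCn p
      refine ⟨g ⟨c, hc⟩, ?_⟩
      simp only [Function.leftInverse_invFun g.injective ⟨c, hc⟩]
      exact hcp
  choose e he using he
  have hX : ∀ z : μ.ord.ToType → σ.out, ∃ X : μ.ord.ToType → Set P,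
      ∀ η, X η = {p | ∃ ξ, ξ < η ∧ p = e (X ξ) (z ξ)} := by
    intro z
    obtain ⟨X, hX⟩ := rec_choice (α := Set P) (fun a b : μ.ord.ToType => a < b) wellFounded_lt
      (fun η f a => a = {p | ∃ ξ, ∃ h : ξ < η, p = e (f ⟨ξ, h⟩) (z ξ)}) (fun η f _ => ⟨_, rfl⟩)
    refine ⟨X, fun η => (hX η).trans ?_⟩
    ext p
    simp
  choose X hX using hX
  have hcongr : ∀ (z z' : μ.ord.ToType → σ.out) (η : μ.ord.ToType),
      (∀ ξ < η, z ξ = z' ξ) → X z η = X z' η := by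
    intro z z' η
    induction η using WellFoundedLT.induction with
    | ind η ih =>
      intro h
      rw [hX z η, hX z' η]
      ext p
      constructor
      · rintro ⟨ξ, hξ, rfl⟩
        refine ⟨ξ, hξ, ?_⟩
        rw [ih ξ hξ (fun ξ' hξ' => h ξ' (hξ'.trans hξ)), h ξ hξ]
      · rintro ⟨ξ, hξ, rfl⟩
        refine ⟨ξ, hξ, ?_⟩
        rw [ih ξ hξ (fun ξ' hξ' => h ξ' (hξ'.trans hξ)), h ξ hξ]
  let ext : (η : μ.ord.ToType) → (Iio η → σ.out) → (μ.ord.ToType → σ.out) := fun η s ξ =>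
    if h : ξ < η then s ⟨ξ, h⟩ else hσne.some
  have hext : ∀ (z : μ.ord.ToType → σ.out) (η : μ.ord.ToType),
      X (ext η (fun ξ => z ξ.1)) η = X z η := by
    intro z η
    apply hcongr
    intro ξ hξ
    simp only [ext]
    rw [dif_pos hξ]
  let Y : (Σ η : μ.ord.ToType, (Iio η → σ.out)) → Set P := fun s => X (ext s.1 s.2) s.1
  refine ⟨(Σ η : μ.ord.ToType, (Iio η → σ.out)) × Option σ.out,
    fun i => match i.2 with
      | none => if Bd σ (inc (Y i.1)) then inc (Y i.1) else ∅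
      | some ζ => Iic (e (Y i.1) ζ), ?_, ?_, ?_⟩
  · rw [mk_prod, lift_id, lift_id, mk_option, mk_sigma]
    refine (mul_le_mul' ?_ ?_).trans (mul_eq_self hμ0).le
    · refine (sum_le_sum _ (fun _ => μ) ?_).trans ?_
      · intro η
        have h2 : #(Iio η → σ.out) = σ ^ #(Iio η) := by rw [← power_def, mk_out]
        rw [h2]
        have h3 : #(Iio η) < μ := by simpa using mk_Iio_lt η
        refine le_trans ?_ (hst _ (mul_lt_of_lt hμ0 hσμ h3)).le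
        rw [power_mul]
        exact power_le_power_right (cantor _).le
      · rw [sum_const']
        simp only [mk_toType, card_ord]
        exact (mul_eq_self hμ0).le
    · rw [mk_out]
      exact add_le_of_le hμ0 hσμ.le (one_lt_aleph0.le.trans hμ0)
  · rintro ⟨s, _ | ζ⟩
    · simp only
      split_ifs with h
      · exact h
      · exact Bd.of_bdd hne.some (fun c hc => hc.elim)
    · exact Bd.of_bdd (e (Y s) ζ) (fun c hc => hc)
  · intro x
    by_contra hcon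
    push Not at hcon
    have hc1 : ∀ (z : μ.ord.ToType → σ.out) (η : μ.ord.ToType), Bd σ (inc (X z η)) →
        x ∉ inc (X z η) := by
      intro z η hbd hx
      apply hcon (⟨η, fun ξ => z ξ.1⟩, none)
      simp only [Y]
      rw [hext, if_pos hbd]
      exact hx
    have hc2 : ∀ (z : μ.ord.ToType → σ.out) (η : μ.ord.ToType) (ζ : σ.out),
        ¬ x ≤ e (X z η) ζ := by
      intro z η ζ hx
      apply hcon (⟨η, fun ξ => z ξ.1⟩, some ζ)
      simp only [Y]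
      rw [hext]
      exact hx
    have hc3 : ∀ (z : μ.ord.ToType → σ.out) (η : μ.ord.ToType),
        (∀ ξ < η, ¬ e (X z ξ) (z ξ) ≤ x) → ¬ Bd σ (inc (X z η)) := by
      intro z η h hbd
      refine hc1 z η hbd ?_
      intro a ha
      rw [hX z η] at ha
      obtain ⟨ξ, hξ, rfl⟩ := ha
      exact ⟨h ξ hξ, hc2 z ξ (z ξ)⟩
    obtain ⟨z, hz⟩ := rec_choice (α := σ.out) (fun a b : μ.ord.ToType => a < b) wellFounded_lt
      (fun η f a => ¬ e (X (ext η (fun ξ => f ⟨ξ.1, ξ.2⟩)) η) a ≤ x) (by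
        intro η f hf
        have h1 := hc3 f η (by
          intro ξ hξ
          have h2 := hf ξ hξ
          rw [hext f ξ] at h2
          exact h2)
        obtain ⟨ζ, hζ⟩ := (he _ h1).2 x
        refine ⟨ζ, ?_⟩
        rw [hext f η]
        exact hζ)
    have hz' : ∀ η, ¬ e (X z η) (z η) ≤ x := by
      intro η
      have h2 := hz η
      rw [hext z η] at h2
      exact h2
    let a : μ.ord.ToType → P := fun η => e (X z η) (z η)
    have ha : ∀ ξ η, ξ < η → ¬ a ξ ≤ a η ∧ ¬ a η ≤ a ξ := by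
      intro ξ η hξη
      have h1 := (he _ (hc3 z η (fun ξ _ => hz' ξ))).1 (z η)
      refine h1 (a ξ) ?_
      rw [hX z η]
      exact ⟨ξ, hξη, rfl⟩
    have hinj : Function.Injective a := by
      intro ξ η h
      rcases lt_trichotomy ξ η with hlt | heq | hgt
      · exact ((ha ξ η hlt).1 h.le).elim
      · exact heq
      · exact ((ha η ξ hgt).1 h.ge).elim
    have hanti : IsAntichain (· ≤ ·) (range a) := by
      rintro _ ⟨ξ, rfl⟩ _ ⟨η, rfl⟩ hne' hle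
      rcases lt_trichotomy ξ η with hlt | heq | hgt
      · exact (ha ξ η hlt).1 hle
      · exact hne' (by rw [heq])
      · exact (ha η ξ hgt).2 hle
    have h5 := hD.lt hanti
    rw [mk_range_eq a hinj] at h5
    simp at h5

end Pool.Agent.H99.Ideals
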