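import Pool.Agent.H99.Ideals.S2

set_option autoImplicit false

universe u

open Cardinal Set

namespace Pool.Agent.H99.Ideals

open Pool.Agent.H12.Ideals

variable {P : Type u} [PartialOrder P] {μ κ : Cardinal.{u}} {ρ : κ.ord.ToType → Cardinal.{u}}

/-- The theorem for posets all of whose upper cones contain antichains of every size `< μ`. -/
theorem core (hs : Scale μ κ ρ) (hst : ∀ l < μ, 2 ^ l < μ) (hD : InD μ P) (hne : Nonempty P)
    (hH : ∀ w : P, ∀ l < μ, ∃ A ⊆ Ici w, IsAntichain (· ≤ ·) A ∧ #A = l) :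
    CoveredByFewer μ P := by
  classical
  obtain ⟨σ, hκσ, hσμ, hdom⟩ := step2 hs hst hD hH
  have hσ : ℵ₀ ≤ σ := hs.inf.trans hκσ
  obtain ⟨ι, R, hι, hR, hcov⟩ := step4 hst hD hσ hσμ hne
  obtain ⟨S, hS1, hS2⟩ := exists_decomp (P := ι) hs hι
  have h1 : ∀ γ, ∃ T : σ.out → Set P, (∀ ζ, Bd σ (T ζ)) ∧ ⋃ i : S γ, R i.1 ⊆ ⋃ ζ, T ζ :=
    fun γ => step5 hst hσ hσμ hdom hne (hS1 γ) (fun i => R i.1) (fun i => hR i.1)
  choose T hT1 hT2 using h1
  obtain ⟨𝓕, g1, g2, g3⟩ := step6 hσ (J := κ.ord.ToType × σ.out) (by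
    rw [mk_prod, lift_id, lift_id, mk_out, mk_toType, card_ord]
    exact (mul_le_mul' hκσ le_rfl).trans (mul_eq_self hσ).le)
    (fun j => T j.1 j.2) (fun j => hT1 j.1 j.2) (by
      intro p
      obtain ⟨i, hi⟩ := hcov p
      have hi2 : i ∈ ⋃ γ, S γ := by rw [hS2]; trivial
      obtain ⟨γ, hγ⟩ := mem_iUnion.1 hi2
      obtain ⟨ζ, hζ⟩ := mem_iUnion.1 (hT2 γ (mem_iUnion.2 ⟨⟨i, hγ⟩, hi⟩))
      exact ⟨(γ, ζ), hζ⟩)
  exact ⟨𝓕, g1.trans_lt hσμ, g2, g3⟩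

theorem sm_of_cov (hs : Scale μ κ ρ) {X : Set P} (h : Cov X μ) : Sm μ X := by
  obtain ⟨𝓕, h1, h2, h3⟩ := h
  refine ⟨max ℵ₀ (Order.succ #𝓕), le_max_left _ _, max_lt hs.aleph0_lt (hs.lim _ h1), 𝓕, ?_,
    h2, h3⟩
  exact (Order.lt_succ _).trans_le ((le_max_right _ _).trans (le_F (le_max_left _ _)))

theorem cov_of_sm (hst : ∀ l < μ, 2 ^ l < μ) {X : Set P} (h : Sm μ X) : Cov X μ := by
  obtain ⟨σ, h1, h2, h3⟩ := h
  exact h3.mono subset_rfl ((F_le_succ h1).trans (Order.succ_le_of_lt (hst _ h2)))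

/-- Every `P ∈ D(μ)`, `μ` singular strong limit, is covered by fewer than `μ` ideals. -/
theorem coveredByFewer (hμ : μ.IsSingular) (hst : μ.IsStrongLimit) (P : Type u) [PartialOrder P]
    (hD : InD μ P) : CoveredByFewer μ P := by
  classical
  obtain ⟨ρ, hs⟩ := exists_scale hμ
  have hst' : ∀ l < μ, 2 ^ l < μ := fun l hl => hst.isStrongPrelimit hl
  rw [coveredByFewer_iff]
  by_contra hcon
  have hns : ¬ Sm μ (Set.univ : Set P) := fun h => hcon (cov_of_sm hst' h)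
  obtain ⟨x0, hx0⟩ := step1 hs hD hns
  apply hx0 x0 le_rfl
  refine sm_of_cov hs (Cov.of_subtype (X := Ici x0) ?_)
  refine core hs hst' (hD.subtype _) ⟨⟨x0, le_rfl⟩⟩ ?_
  intro w l hl
  have h1 : ¬ Cov (Ici w.1) (F (max ℵ₀ l)) := fun hc =>
    hx0 w.1 w.2 ⟨max ℵ₀ l, le_max_left _ _, max_lt hs.aleph0_lt hl, hc⟩
  obtain ⟨A, hA1, hA2, hA3⟩ := exists_antichain_of_not_cov (le_max_left _ _) h1
  obtain ⟨B, hBA, hB, hBl⟩ := IsAntichain.exists_subset_card hA2 (l := l)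
    (by rw [hA3]; exact le_max_right _ _)
  refine ⟨Subtype.val ⁻¹' B, ?_, ?_, ?_⟩
  · intro b hb
    exact hA1 (hBA hb)
  · intro a ha b hb hab hle
    exact hB ha hb (fun h => hab (Subtype.ext h)) hle
  · rw [← hBl]
    refine mk_preimage_of_injective_of_subset_range _ _ Subtype.val_injective ?_
    intro b hb
    exact ⟨⟨b, w.2.trans (hA1 (hBA hb))⟩, rfl⟩

/-- `F μ = μ` for every singular strong limit cardinal `μ`. -/
theorem F_eq (hμ : μ.IsSingular) (hst : μ.IsStrongLimit) : F μ = μ :=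
  le_antisymm (csInf_le' fun P _ hP => coveredByFewer hμ hst P hP) (le_F hμ.aleph0_le)

end Pool.Agent.H99.Ideals
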