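import Pool.Agent.H12.Ideals.P1
import Pool.Agent.H12.Ideals.Tree

set_option autoImplicit false

universe u

open Cardinal Set

namespace Pool.Agent.H99.Ideals

open Pool.Agent.H12.Ideals

variable {P : Type u} [PartialOrder P] {κ : Cardinal.{u}}

/-- If `κ` is regular, strong limit (or `ℵ₀`) with the tree property, then every `P ∈ D(κ)` is
covered by fewer than `κ` ideals. -/
theorem coveredByFewer_of_treeProperty (hκ : ℵ₀ ≤ κ) (hpow : ∀ l < κ, 2 ^ l < κ)
    (hreg : κ.ord.cof = κ) (htree : TreeProperty κ) (hD : InD κ P) : CoveredByFewer κ P := by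
  classical
  rcases isEmpty_or_nonempty P with hPe | hne
  · refine ⟨∅, ?_, ?_, ?_⟩
    · rw [mk_eq_zero]
      exact aleph0_pos.trans_le hκ
    · intro I hI
      exact hI.elim
    · ext x
      exact (hPe.false x).elim
  -- witnesses for non-directedness
  have he : ∀ A : Set P, ∃ e : Bool → P, ¬ DirectedOn (· ≤ ·) (inc A) →
      (∀ b, e b ∈ inc A) ∧ ∀ p ∈ inc A, ∃ b, ¬ e b ≤ p := by
    intro A
    by_cases hA : DirectedOn (· ≤ ·) (inc A)
    · exact ⟨fun _ => hne.some, fun h => (h hA).elim⟩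
    · unfold DirectedOn at hA
      push Not at hA
      obtain ⟨x, hx, y, hy, hxy⟩ := hA
      refine ⟨fun b => if b then x else y, fun _ => ⟨?_, ?_⟩⟩
      · intro b
        cases b
        · simpa using hy
        · simpa using hx
      · intro p hp
        by_cases hxp : x ≤ p
        · exact ⟨false, by simpa using hxy p hp hxp⟩
        · exact ⟨true, by simpa using hxp⟩
  choose e he using he
  have hX : ∀ z : κ.ord.ToType → Bool, ∃ X : κ.ord.ToType → Set P,
      ∀ η, X η = {p | ∃ ξ, ξ < η ∧ p = e (X ξ) (z ξ)} := by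
    intro z
    obtain ⟨X, hX⟩ := rec_choice (α := Set P) (fun a b : κ.ord.ToType => a < b) wellFounded_lt
      (fun η f a => a = {p | ∃ ξ, ∃ h : ξ < η, p = e (f ⟨ξ, h⟩) (z ξ)}) (fun η f _ => ⟨_, rfl⟩)
    refine ⟨X, fun η => (hX η).trans ?_⟩
    ext p
    simp
  choose X hX using hX
  have hcongr : ∀ (z z' : κ.ord.ToType → Bool) (η : κ.ord.ToType),
      (∀ ξ < η, z ξ = z' ξ) → X z η = X z' η := by
    intro z z' η
    induction η using WellFoundedLT.induction with
    | ind η ih =>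
      intro h
      rw [hX z η, hX z' η]
      ext p
      constructor
      · rintro ⟨ξ, hξ, rfl⟩
        refine ⟨ξ, hξ, ?_⟩
        rw [ih ξ hξ (fun ξ' hξ' => h ξ' (hξ'.trans hξ)), h ξ hξ]
      · rintro ⟨ξ, hξ, rfl⟩
        refine ⟨ξ, hξ, ?_⟩
        rw [ih ξ hξ (fun ξ' hξ' => h ξ' (hξ'.trans hξ)), h ξ hξ]
  let ext : (η : κ.ord.ToType) → (Iio η → Bool) → (κ.ord.ToType → Bool) := fun η s ξ =>
    if h : ξ < η then s ⟨ξ, h⟩ else false
  have hext : ∀ (z : κ.ord.ToType → Bool) (η ξ : κ.ord.ToType), ξ ≤ η →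
      X (ext η (fun ξ => z ξ.1)) ξ = X z ξ := by
    intro z η ξ hξ
    apply hcongr
    intro ξ' hξ'
    simp only [ext]
    rw [dif_pos (hξ'.trans_le hξ)]
  -- antichain from a long branch
  have hbranch : ∀ z : κ.ord.ToType → Bool,
      ∃ ξ, DirectedOn (· ≤ ·) (inc (X z ξ)) := by
    intro z
    by_contra hcon
    push Not at hcon
    let a : κ.ord.ToType → P := fun η => e (X z η) (z η)
    have ha : ∀ ξ η, ξ < η → ¬ a ξ ≤ a η ∧ ¬ a η ≤ a ξ := by
      intro ξ η hξη
      have h1 := (he _ (hcon η)).1 (z η)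
      refine h1 (a ξ) ?_
      rw [hX z η]
      exact ⟨ξ, hξη, rfl⟩
    have hinj : Function.Injective a := by
      intro ξ η h
      rcases lt_trichotomy ξ η with hlt | heq | hgt
      · exact ((ha ξ η hlt).1 h.le).elim
      · exact heq
      · exact ((ha η ξ hgt).1 h.ge).elim
    have hanti : IsAntichain (· ≤ ·) (range a) := by
      rintro _ ⟨ξ, rfl⟩ _ ⟨η, rfl⟩ hne' hle
      rcases lt_trichotomy ξ η with hlt | heq | hgt
      · exact (ha ξ η hlt).1 hle
      · exact hne' (by rw [heq])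
      · exact (ha η ξ hgt).2 hle
    have h5 := hD.lt hanti
    rw [mk_range_eq a hinj] at h5
    simp at h5
  -- bounded height
  obtain ⟨η₀, hη₀⟩ : ∃ η₀ : κ.ord.ToType, ∀ z : κ.ord.ToType → Bool,
      ∃ ξ ≤ η₀, DirectedOn (· ≤ ·) (inc (X z ξ)) := by
    by_contra hcon
    push Not at hcon
    let T : κ.ord.ToType → Type u := fun η =>
      {s : Iio η → Bool // ∀ ξ ≤ η, ¬ DirectedOn (· ≤ ·) (inc (X (ext η s) ξ))}
    let res : ∀ a b : κ.ord.ToType, a ≤ b → (Iio b → Bool) → (Iio a → Bool) :=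
      fun a b hab s ξ => s ⟨ξ.1, lt_of_lt_of_le ξ.2 hab⟩
    have hres : ∀ a b (hab : a ≤ b) (s : Iio b → Bool) (ξ : κ.ord.ToType), ξ ≤ a →
        X (ext a (res a b hab s)) ξ = X (ext b s) ξ := by
      intro a b hab s ξ hξ
      apply hcongr
      intro ξ' hξ'
      have h1 : ξ' < a := hξ'.trans_le hξ
      have h2 : ξ' < b := h1.trans_le hab
      simp only [ext, res]
      rw [dif_pos h1, dif_pos h2]
    obtain ⟨s, hs⟩ := htree T
      (fun a b hab s => ⟨res a b hab s.1, fun ξ hξ => by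
        rw [hres a b hab s.1 ξ hξ]
        exact s.2 ξ (hξ.trans hab)⟩)
      (fun a x => Subtype.ext rfl)
      (fun a b c hab hbc x => Subtype.ext rfl)
      (fun η => by
        obtain ⟨z, hz⟩ := hcon η
        refine ⟨⟨fun ξ => z ξ.1, fun ξ hξ => ?_⟩⟩
        rw [hext z η ξ hξ]
        exact hz ξ hξ)
      (fun η => by
        refine (mk_subtype_le _).trans_lt ?_
        have h3 : #(Iio η) < κ := by simpa using mk_Iio_lt η
        have h4 : #(Iio η → Bool) = 2 ^ #(Iio η) := by simp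
        rw [h4]
        exact hpow _ h3)
    -- the thread gives a branch
    have hmax : ∀ η : κ.ord.ToType, ∃ η', η < η' := by
      intro η
      have : NoMaxOrder κ.ord.ToType := noMaxOrder hκ
      exact exists_gt η
    choose nxt hnxt using hmax
    let z : κ.ord.ToType → Bool := fun η => (s (nxt η)).1 ⟨η, hnxt η⟩
    have hz : ∀ η, (fun ξ : Iio η => z ξ.1) = (s η).1 := by
      intro η
      funext ξ
      have hcoh : ∀ a b (hab : a ≤ b) (ξ : κ.ord.ToType) (h : ξ < a),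
          (s b).1 ⟨ξ, lt_of_lt_of_le h hab⟩ = (s a).1 ⟨ξ, h⟩ := by
        intro a b hab ξ h
        have h1 := congrArg (fun x : T a => x.1 ⟨ξ, h⟩) (hs a b hab)
        exact h1
      rcases le_total (nxt ξ.1) η with h | h
      · exact (hcoh _ _ h ξ.1 (hnxt ξ.1)).symm
      · exact hcoh _ _ h ξ.1 ξ.2
    obtain ⟨ξ, hξ⟩ := hbranch z
    have h6 := (s ξ).2 ξ le_rfl
    rw [← hz ξ, hext z ξ ξ le_rfl] at h6
    exact h6 hξ
  -- the family
  let J : Type u := Σ η : Iic η₀, (Iio η.1 → Bool)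
  let Y : J → Set P := fun s => X (ext s.1.1 s.2) s.1.1
  have hJ : #J < κ := by
    rw [mk_sigma]
    have h1 : #(Iic η₀) < κ := by
      have h0 : #(Iio η₀) < κ := by simpa using mk_Iio_lt η₀
      rw [← Iio_union_right]
      refine (mk_union_le _ _).trans_lt (add_lt_of_lt hκ h0 ?_)
      rw [mk_singleton]
      exact one_lt_aleph0.trans_le hκ
    refine (sum_le_mk_mul_iSup _).trans_lt (mul_lt_of_lt hκ h1 ?_)
    refine iSup_lt_of_lt_cof_ord ?_ ?_
    · rw [hreg]
      exact h1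
    · intro η
      have h3 : #(Iio η.1) < κ := by simpa using mk_Iio_lt η.1
      have h4 : #(Iio η.1 → Bool) = 2 ^ #(Iio η.1) := by simp
      rw [h4]
      exact hpow _ h3
  let I : J × Option Bool → Set P := fun i => match i.2 with
    | none => if DirectedOn (· ≤ ·) (inc (Y i.1)) then dn (inc (Y i.1)) else Iic hne.some
    | some b => Iic (e (Y i.1) b)
  refine ⟨range I, ?_, ?_, ?_⟩
  · refine mk_range_le.trans_lt ?_
    rw [mk_prod]
    refine mul_lt_of_lt hκ (by simpa using hJ) ?_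
    refine lt_of_lt_of_le ?_ hκ
    rw [lift_lt_aleph0]
    exact lt_aleph0_of_finite _
  · rintro _ ⟨⟨s, _ | b⟩, rfl⟩
    · simp only [I]
      split_ifs with h
      · exact IsIdl.dn_of_directed h
      · exact isIdl_Iic _
    · exact isIdl_Iic _
  · refine Set.eq_univ_of_forall fun x => ?_
    by_contra hcov
    have hcov' : ∀ i, x ∉ I i := fun i hi => hcov ⟨_, ⟨i, rfl⟩, hi⟩
    have hc1 : ∀ (z : κ.ord.ToType → Bool) (η : κ.ord.ToType), η ≤ η₀ →
        DirectedOn (· ≤ ·) (inc (X z η)) → x ∉ inc (X z η) := by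
      intro z η hη hd hx
      apply hcov' (⟨⟨η, hη⟩, fun ξ => z ξ.1⟩, none)
      simp only [I, Y]
      rw [hext z η η le_rfl, if_pos hd]
      exact ⟨x, hx, le_rfl⟩
    have hc2 : ∀ (z : κ.ord.ToType → Bool) (η : κ.ord.ToType) (b : Bool), η ≤ η₀ →
        ¬ x ≤ e (X z η) b := by
      intro z η b hη hx
      apply hcov' (⟨⟨η, hη⟩, fun ξ => z ξ.1⟩, some b)
      simp only [I, Y]
      rw [hext z η η le_rfl]
      exact hx
    obtain ⟨z, hz⟩ := rec_choice (α := Bool) (fun a b : κ.ord.ToType => a < b) wellFounded_lt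
      (fun η f a => ¬ DirectedOn (· ≤ ·) (inc (X (ext η (fun ξ => f ⟨ξ.1, ξ.2⟩)) η)) →
        x ∈ inc (X (ext η (fun ξ => f ⟨ξ.1, ξ.2⟩)) η) →
        ¬ e (X (ext η (fun ξ => f ⟨ξ.1, ξ.2⟩)) η) a ≤ x) (by
        intro η f hf
        by_cases h1 : ¬ DirectedOn (· ≤ ·) (inc (X (ext η (fun ξ => f ξ.1)) η)) ∧
            x ∈ inc (X (ext η (fun ξ => f ξ.1)) η)
        · obtain ⟨b, hb⟩ := (he _ h1.1).2 x h1.2
          exact ⟨b, fun _ _ => hb⟩
        · exact ⟨false, fun h2 h3 => (h1 ⟨h2, h3⟩).elim⟩)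
    have hz' : ∀ η, ¬ DirectedOn (· ≤ ·) (inc (X z η)) → x ∈ inc (X z η) →
        ¬ e (X z η) (z η) ≤ x := by
      intro η
      have h2 := hz η
      rw [hext z η η le_rfl] at h2
      exact h2
    -- `x` belongs to all the sets `inc (X z η)`, `η ≤ η₀`
    have hmem : ∀ η, η ≤ η₀ → x ∈ inc (X z η) := by
      intro η
      induction η using WellFoundedLT.induction with
      | ind η ih =>
        intro hη a ha
        rw [hX z η] at ha
        obtain ⟨ξ, hξ, rfl⟩ := ha
        have hξ0 : ξ ≤ η₀ := hξ.le.trans hη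
        have h1 := ih ξ hξ hξ0
        refine ⟨hz' ξ (fun hd => hc1 z ξ hξ0 hd h1) h1, hc2 z ξ (z ξ) hξ0⟩
    obtain ⟨ξ, hξ, hd⟩ := hη₀ z
    exact hc1 z ξ hξ hd (hmem ξ hξ)

end Pool.Agent.H99.Ideals
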