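import Mathlib

set_option autoImplicit false

universe u

open Cardinal Set

namespace Pool.Agent.H99.Ideals

/-- `T` is a `μ`-Souslin tree (for regular `μ`): the set of predecessors of every element is
well-ordered, `T` has cardinality `μ`, and `T` has neither a chain nor an antichain of
cardinality `μ`. -/
def IsSouslinTree (μ : Cardinal.{u}) (T : Type u) [PartialOrder T] : Prop :=
  (∀ t : T, IsChain (· ≤ ·) (Iio t) ∧ (Iio t).IsWF) ∧ #T = μ ∧
    (∀ C : Set T, IsChain (· ≤ ·) C → #C ≠ μ) ∧ (∀ A : Set T, IsAntichain (· ≤ ·) A → #A ≠ μ)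

end Pool.Agent.H99.Ideals
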