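import Pool.Agent.H12.Ideals.P1
import Pool.Agent.H99.Ideals.Souslin

set_option autoImplicit false

universe u

open Cardinal Set

namespace Pool.Agent.H99.Ideals

open Pool.Agent.H12.Ideals

variable {P : Type u} [PartialOrder P] {κ : Cardinal.{u}}

/-- If `2 ^ l ≤ κ` for all `l < κ`, then every `P ∈ D(κ)` is covered by at most `κ` ideals. -/
theorem cover_le (hκ : ℵ₀ ≤ κ) (hpow : ∀ l < κ, 2 ^ l ≤ κ) (hD : InD κ P) :
    ∃ 𝓕 : Set (Set P), #𝓕 ≤ κ ∧ (∀ I ∈ 𝓕, IsIdl I) ∧ ⋃₀ 𝓕 = Set.univ := by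
  classical
  rcases isEmpty_or_nonempty P with hPe | hne
  · refine ⟨∅, ?_, ?_, ?_⟩
    · rw [mk_eq_zero]
      exact zero_le
    · intro I hI
      exact hI.elim
    · ext x
      exact (hPe.false x).elim
  -- witnesses for non-directedness
  have he : ∀ A : Set P, ∃ e : Bool → P, ¬ DirectedOn (· ≤ ·) (inc A) →
      (∀ b, e b ∈ inc A) ∧ ∀ p ∈ inc A, ∃ b, ¬ e b ≤ p := by
    intro A
    by_cases hA : DirectedOn (· ≤ ·) (inc A)
    · exact ⟨fun _ => hne.some, fun h => (h hA).elim⟩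
    · unfold DirectedOn at hA
      push Not at hA
      obtain ⟨x, hx, y, hy, hxy⟩ := hA
      refine ⟨fun b => if b then x else y, fun _ => ⟨?_, ?_⟩⟩
      · intro b
        cases b
        · simpa using hy
        · simpa using hx
      · intro p hp
        by_cases hxp : x ≤ p
        · exact ⟨false, by simpa using hxy p hp hxp⟩
        · exact ⟨true, by simpa using hxp⟩
  choose e he using he
  have hX : ∀ z : κ.ord.ToType → Bool, ∃ X : κ.ord.ToType → Set P,
      ∀ η, X η = {p | ∃ ξ, ξ < η ∧ p = e (X ξ) (z ξ)} := by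
    intro z
    obtain ⟨X, hX⟩ := rec_choice (α := Set P) (fun a b : κ.ord.ToType => a < b) wellFounded_lt
      (fun η f a => a = {p | ∃ ξ, ∃ h : ξ < η, p = e (f ⟨ξ, h⟩) (z ξ)}) (fun η f _ => ⟨_, rfl⟩)
    refine ⟨X, fun η => (hX η).trans ?_⟩
    ext p
    simp
  choose X hX using hX
  have hcongr : ∀ (z z' : κ.ord.ToType → Bool) (η : κ.ord.ToType),
      (∀ ξ < η, z ξ = z' ξ) → X z η = X z' η := by
    intro z z' η
    induction η using WellFoundedLT.induction with
    | ind η ih =>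
      intro h
      rw [hX z η, hX z' η]
      ext p
      constructor
      · rintro ⟨ξ, hξ, rfl⟩
        refine ⟨ξ, hξ, ?_⟩
        rw [ih ξ hξ (fun ξ' hξ' => h ξ' (hξ'.trans hξ)), h ξ hξ]
      · rintro ⟨ξ, hξ, rfl⟩
        refine ⟨ξ, hξ, ?_⟩
        rw [ih ξ hξ (fun ξ' hξ' => h ξ' (hξ'.trans hξ)), h ξ hξ]
  let ext : (η : κ.ord.ToType) → (Iio η → Bool) → (κ.ord.ToType → Bool) := fun η s ξ =>
    if h : ξ < η then s ⟨ξ, h⟩ else false
  have hext : ∀ (z : κ.ord.ToType → Bool) (η : κ.ord.ToType),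
      X (ext η (fun ξ => z ξ.1)) η = X z η := by
    intro z η
    apply hcongr
    intro ξ' hξ'
    simp only [ext]
    rw [dif_pos hξ']
  -- the family
  let J : Type u := Σ η : κ.ord.ToType, (Iio η → Bool)
  let Y : J → Set P := fun s => X (ext s.1 s.2) s.1
  have hJ : #J ≤ κ := by
    rw [mk_sigma]
    refine (sum_le_sum _ (fun _ => κ) ?_).trans ?_
    · intro η
      have h3 : #(Iio η) < κ := by simpa using mk_Iio_lt η
      have h4 : #(Iio η → Bool) = 2 ^ #(Iio η) := by simp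
      rw [h4]
      exact hpow _ h3
    · rw [sum_const']
      simp only [mk_toType, card_ord]
      exact (mul_eq_self hκ).le
  let I : J × Option Bool → Set P := fun i => match i.2 with
    | none => if DirectedOn (· ≤ ·) (inc (Y i.1)) then dn (inc (Y i.1)) else Iic hne.some
    | some b => Iic (e (Y i.1) b)
  refine ⟨range I, ?_, ?_, ?_⟩
  · refine mk_range_le.trans ?_
    rw [mk_prod]
    refine (mul_le_mul' (by simpa using hJ) ?_).trans (mul_eq_self hκ).le
    refine le_trans (le_of_lt ?_) hκ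
    rw [lift_lt_aleph0]
    exact lt_aleph0_of_finite _
  · rintro _ ⟨⟨s, _ | b⟩, rfl⟩
    · simp only [I]
      split_ifs with h
      · exact IsIdl.dn_of_directed h
      · exact isIdl_Iic _
    · exact isIdl_Iic _
  · refine Set.eq_univ_of_forall fun x => ?_
    by_contra hcov
    have hcov' : ∀ i, x ∉ I i := fun i hi => hcov ⟨_, ⟨i, rfl⟩, hi⟩
    have hc1 : ∀ (z : κ.ord.ToType → Bool) (η : κ.ord.ToType),
        DirectedOn (· ≤ ·) (inc (X z η)) → x ∉ inc (X z η) := by
      intro z η hd hx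
      apply hcov' (⟨η, fun ξ => z ξ.1⟩, none)
      simp only [I, Y]
      rw [hext z η, if_pos hd]
      exact ⟨x, hx, le_rfl⟩
    have hc2 : ∀ (z : κ.ord.ToType → Bool) (η : κ.ord.ToType) (b : Bool),
        ¬ x ≤ e (X z η) b := by
      intro z η b hx
      apply hcov' (⟨η, fun ξ => z ξ.1⟩, some b)
      simp only [I, Y]
      rw [hext z η]
      exact hx
    have hc3 : ∀ (z : κ.ord.ToType → Bool) (η : κ.ord.ToType),
        (∀ ξ < η, ¬ e (X z ξ) (z ξ) ≤ x) → x ∈ inc (X z η) := by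
      intro z η h a ha
      rw [hX z η] at ha
      obtain ⟨ξ, hξ, rfl⟩ := ha
      exact ⟨h ξ hξ, hc2 z ξ (z ξ)⟩
    obtain ⟨z, hz⟩ := rec_choice (α := Bool) (fun a b : κ.ord.ToType => a < b) wellFounded_lt
      (fun η f a => ¬ e (X (ext η (fun ξ => f ⟨ξ.1, ξ.2⟩)) η) a ≤ x) (by
        intro η f hf
        have h1 := hc3 f η (by
          intro ξ hξ
          have h2 := hf ξ hξ
          rw [hext f ξ] at h2
          exact h2)
        obtain ⟨b, hb⟩ := (he _ (fun hd => hc1 f η hd h1)).2 x h1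
        refine ⟨b, ?_⟩
        rw [hext f η]
        exact hb)
    have hz' : ∀ η, ¬ e (X z η) (z η) ≤ x := by
      intro η
      have h2 := hz η
      rw [hext z η] at h2
      exact h2
    let a : κ.ord.ToType → P := fun η => e (X z η) (z η)
    have ha : ∀ ξ η, ξ < η → ¬ a ξ ≤ a η ∧ ¬ a η ≤ a ξ := by
      intro ξ η hξη
      have h1 := (he _ (fun hd => hc1 z η hd (hc3 z η (fun ξ _ => hz' ξ)))).1 (z η)
      refine h1 (a ξ) ?_
      rw [hX z η]
      exact ⟨ξ, hξη, rfl⟩
    have hinj : Function.Injective a := by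
      intro ξ η h
      rcases lt_trichotomy ξ η with hlt | heq | hgt
      · exact ((ha ξ η hlt).1 h.le).elim
      · exact heq
      · exact ((ha η ξ hgt).1 h.ge).elim
    have hanti : IsAntichain (· ≤ ·) (range a) := by
      rintro _ ⟨ξ, rfl⟩ _ ⟨η, rfl⟩ hne' hle
      rcases lt_trichotomy ξ η with hlt | heq | hgt
      · exact (ha ξ η hlt).1 hle
      · exact hne' (by rw [heq])
      · exact (ha η ξ hgt).2 hle
    have h5 := hD.lt hanti
    rw [mk_range_eq a hinj] at h5
    simp at h5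

/-- A `κ`-Souslin tree is not covered by fewer than `κ` ideals. -/
theorem not_coveredByFewer_of_souslin (hκ : ℵ₀ ≤ κ) (hreg : κ.ord.cof = κ)
    (hT : IsSouslinTree κ P) : ¬ CoveredByFewer κ P := by
  rintro ⟨𝓕, h1, h2, h3⟩
  obtain ⟨g1, g2, g3, g4⟩ := hT
  have h4 : ∀ I : 𝓕, #I.1 < κ := by
    intro I
    have hI := h2 I.1 I.2
    have hchain : IsChain (· ≤ ·) I.1 := by
      intro x hx y hy hxy
      obtain ⟨z, hz, hxz, hyz⟩ := hI.2 x hx y hy
      rcases hxz.eq_or_lt with h | h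
      · exact Or.inr (h ▸ hyz)
      · rcases hyz.eq_or_lt with h' | h'
        · exact Or.inl (h' ▸ hxz)
        · exact (g1 z).1 h h' hxy
    by_contra hcon
    obtain ⟨C, hC, hCκ⟩ := le_mk_iff_exists_subset.1 (not_lt.1 hcon)
    exact g3 C (hchain.mono hC) hCκ
  have h5 : #P < κ := by
    rw [← mk_univ, ← h3, sUnion_eq_iUnion]
    refine mk_iUnion_le_sum_mk.trans_lt ((sum_le_mk_mul_iSup _).trans_lt ?_)
    refine mul_lt_of_lt hκ h1 (iSup_lt_of_lt_cof_ord ?_ h4)
    rw [hreg]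
    exact h1
  rw [g2] at h5
  exact lt_irrefl _ h5

end Pool.Agent.H99.Ideals
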