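import Pool.Agent.H12.Ideals.CH4
import Pool.Agent.H12.Ideals.T2Final
import Pool.Agent.H99.Ideals.S3
import Pool.Agent.H99.Ideals.S4
import Pool.Agent.H99.Ideals.S5

set_option autoImplicit false

universe u

open Cardinal Set

namespace Pool.Agent.H99.Ideals

open Pool.Agent.H12.Ideals

variable {μ : Cardinal.{u}}

theorem F_eq_of_covered (hμ : ℵ₀ ≤ μ)
    (h : ∀ (P : Type u) [PartialOrder P], InD μ P → CoveredByFewer μ P) : F μ = μ :=
  le_antisymm (csInf_le' h) (le_F hμ)

theorem F_aleph0 : F (ℵ₀ : Cardinal.{u}) = ℵ₀ :=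
  F_eq_of_covered le_rfl fun P _ hP => coveredByFewer_of_treeProperty le_rfl
    (fun _ hl => power_lt_aleph0 (by exact_mod_cast (natCast_lt_aleph0 (n := 2))) hl)
    isRegular_aleph0.cof_ord treeProperty_aleph0 hP

theorem F_weaklyCompact (h : WeaklyCompact μ) : F μ = μ :=
  F_eq_of_covered h.1.isRegular.aleph0_le fun P _ hP =>
    coveredByFewer_of_treeProperty h.1.isRegular.aleph0_le
      (fun _ hl => h.1.isStrongLimit.isStrongPrelimit hl) h.1.isRegular.cof_ord h.2 hP

theorem two_power_le (hGCH : ∀ l : Cardinal.{u}, ℵ₀ ≤ l → (2 : Cardinal.{u}) ^ l = Order.succ l)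
    (hμ : ℵ₀ ≤ μ) : ∀ l < μ, (2 : Cardinal.{u}) ^ l ≤ μ := by
  intro l hl
  rcases lt_or_ge l ℵ₀ with h | h
  · exact (power_lt_aleph0 (by exact_mod_cast (natCast_lt_aleph0 (n := 2))) h).le.trans hμ
  · rw [hGCH l h]
    exact Order.succ_le_of_lt hl

/-- The complete table of `F` under GCH and the existence of Souslin trees at all regular
cardinals above `ℵ₁` which are not weakly compact. -/
theorem table (hGCH : ∀ l : Cardinal.{u}, ℵ₀ ≤ l → (2 : Cardinal.{u}) ^ l = Order.succ l)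
    (hS : ∀ ν : Cardinal.{u}, ν.IsRegular → ℵ₁ < ν → ¬ WeaklyCompact ν →
      ∃ (T : Type u) (_ : PartialOrder T), IsSouslinTree ν T) (hμ : ℵ₀ ≤ μ) :
    ((μ = ℵ₀ ∨ WeaklyCompact μ ∨ μ.IsSingular) → F μ = μ) ∧
    (¬ (μ = ℵ₀ ∨ WeaklyCompact μ ∨ μ.IsSingular) → F μ = Order.succ μ) := by
  constructor
  · rintro (h | h | h)
    · rw [h]
      exact F_aleph0
    · exact F_weaklyCompact h
    · refine F_eq h ⟨(aleph0_pos.trans_le hμ).ne', ?_⟩
      intro x hx
      rcases lt_or_ge x ℵ₀ with h' | h'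
      · exact (power_lt_aleph0 (by exact_mod_cast (natCast_lt_aleph0 (n := 2))) h').trans_le hμ
      · rw [hGCH x h']
        exact h.isSuccLimit.succ_lt hx
  · intro h
    push Not at h
    obtain ⟨h1, h2, h3⟩ := h
    have hreg : μ.IsRegular := IsRegular.of_not_isSingular hμ h3
    have h1' : ℵ₁ ≤ μ := by
      rw [← succ_aleph0]
      exact Order.succ_le_of_lt (lt_of_le_of_ne hμ (Ne.symm h1))
    rcases h1'.eq_or_lt with h4 | h4
    · rw [← h4]
      have h5 := CH.F_aleph_one.{u} (by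
        rw [← two_power_aleph0, hGCH ℵ₀ le_rfl, succ_aleph0])
      rw [h5, succ_aleph]
      congr 1
      norm_num
    · obtain ⟨T, _, hT⟩ := hS μ hreg h4 h2
      apply le_antisymm
      · refine csInf_le' fun P _ hP => ?_
        obtain ⟨𝓕, g1, g2, g3⟩ := cover_le hμ (two_power_le hGCH hμ) hP
        exact ⟨𝓕, Order.lt_succ_iff.2 g1, g2, g3⟩
      · rw [Order.succ_le_iff]
        by_contra hcon
        push Not at hcon
        apply not_coveredByFewer_of_souslin hμ hreg.cof_ord hT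
        have h6 := F_spec (P := T) hμ hT.2.2.2
        rw [coveredByFewer_iff] at h6 ⊢
        exact h6.mono subset_rfl hcon

end Pool.Agent.H99.Ideals
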